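import Pool.Agent.R838.CR.AllR
import Pool.Agent.Y771.NF.FinH

/-!
# The zeros of the heat flow of the completed L-function of Δ are equally spaced, up to a small proportion

Let `Λ(s) = (2π)^(-s) Γ(s) L(s, Δ)`, so that the Ramanujan Xi function is `Ξ_Δ(z) = Λ(6 + i z)`, and let
`Λ_t = exp (t D²) Λ`, `D = d/ds`, be the heat flow. All zeros of `Ξ_Δ` are real if and only if all zeros of `Λ_t` are on
the line `Re s = 6` for all `t > 0`.

The mean distance of the zeros at height `y` is `π / log y`. We prove unconditionally: for all `ε > 0` and `A` there are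
`c, C > 0` such that for `0 < t ≤ 1/8`, `T ≥ 2`, `t log T ≤ A` all zeros of `Λ_t` with imaginary part in `(T, 2T]` but
the proportion `C exp (-c t log² T)` are simple, on the line `Re s = 6`, and followed by a zero which is again simple and
on the line, at the distance `(1 + O(ε)) π / log y`, without any zeros (on or off the line) in between. So as soon as
`t` is large compared with `1 / log² T` almost all zeros form a lattice, while for `t = 0` one expects the statistics of
random matrices. For `t log T > A` the theorem says that the zeros are simple and on the line, with the same exception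
(this is the starting result `HeatFlowDensity`).

Proof: modules `Pool.Agent.R838.CR`. Outside of a set of heights of proportion `exp (-c a)` the function looks at the
scale `a / log T`, `a = t log² T / 2`, away from the line like `exp (a z)` (starting modules of project `Pool.Agent.Y671`
of helper671 and others). The heat flow is on the line the real part of an integral `J` over a half-line, which is
computed by the saddle point method; the new point is that `J` rotates with constant speed up to a small error, and that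
this holds for the derivative as well.
-/

set_option autoImplicit false

namespace Pool.Agent.Results.MP_cd509c_nt.HeatFlowSpacing

open Complex

/-- `Δ(i y) = e^(-2πy) ∏_{n ≥ 1} (1 - e^(-2πny))^24`, the modular discriminant on the imaginary axis
(the function of the frozen statement S18517). -/
noncomputable def delta (y : ℝ) : ℝ :=
  Real.exp (-2 * Real.pi * y) * ∏' n : ℕ, (1 - Real.exp (-2 * Real.pi * ((n : ℝ) + 1) * y)) ^ 24

/-- The completed L-function `Λ(s) = ∫_0^∞ Δ(i y) y^(s-1) dy = (2π)^(-s) Γ(s) L(s, Δ)`, an entire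
function with `Λ(12 - s) = Λ(s)`; `Ξ_Δ(z) = Λ(6 + i z)`. -/
noncomputable def Lam (s : ℂ) : ℂ := mellin (fun y : ℝ => ((delta y : ℝ) : ℂ)) s

/-- The heat flow `Λ_t = e^{t D²} Λ` (`D = d/ds`) as a Gaussian average:
`Λ_t(s) = π^(-1/2) ∫ exp (-v²) Λ(s + 2 √t v) dv`. -/
noncomputable def heat (t : ℝ) (Λ : ℂ → ℂ) (s : ℂ) : ℂ :=
  ((1 / Real.sqrt Real.pi : ℝ) : ℂ) *
    ∫ v : ℝ, ((Real.exp (-v ^ 2) : ℝ) : ℂ) * Λ (s + ((2 * Real.sqrt t * v : ℝ) : ℂ))

/-- The zeros of `Λ_t` with imaginary part in `(T, 2T]`. -/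
def Zer (t T : ℝ) : Set ℂ := {s | heat t Lam s = 0 ∧ T < s.im ∧ s.im ≤ 2 * T}

/-- The next zero of `Y` above `s` is simple and lies vertically above `s`, at a distance `g` with
`|g log (Im s) - π| ≤ ε`; and `s` and `s + i g` are the only zeros with imaginary part in `[Im s, Im s + g]`. -/
def Followed (Y : ℂ → ℂ) (ε : ℝ) (s : ℂ) : Prop :=
  ∃ g : ℝ, 0 < g ∧ |g * Real.log s.im - Real.pi| ≤ ε ∧ Y (s + g * I) = 0 ∧ deriv Y (s + g * I) ≠ 0 ∧
    ∀ z : ℂ, Y z = 0 → s.im ≤ z.im → z.im ≤ s.im + g → z = s ∨ z = s + g * I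

/-- The exceptional zeros: off the line `Re s = 6`, or multiple, or, if `t log T ≤ A`, not followed by a simple zero
vertically above at the distance `(π + O(ε)) / log (Im s)`. -/
def Exc (ε A t T : ℝ) : Set ℂ :=
  {s | s ∈ Zer t T ∧ (s.re ≠ 6 ∨ deriv (heat t Lam) s = 0 ∨
    (t * Real.log T ≤ A ∧ ¬ Followed (heat t Lam) ε s))}

/-- The number of points of `B`, each counted with its multiplicity as a zero of `Λ_t`. -/
noncomputable def num (t : ℝ) (B : Set ℂ) : ℕ := ∑ᶠ s ∈ B, analyticOrderNatAt (heat t Lam) s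

/-- **Main theorem.** For all `ε > 0` and `A` there are `c, C > 0` such that for `0 < t ≤ 1/8`, `T ≥ 2` at most the
proportion `C exp (-c t log² T)` of the zeros of `Λ_t` with imaginary part in `(T, 2T]`, counted with multiplicity, are
off the line `Re s = 6`, or multiple, or (if `t log T ≤ A`) not followed by a simple zero on the line at the distance
`(π + O(ε)) / log (Im s)` without zeros in between; and the number of these exceptional zeros is at most
`C exp (-c t log² T) T log T`. -/
theorem result :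
    (∀ t T : ℝ, 0 ≤ t → (Zer t T).Finite) ∧
    ∀ ε A : ℝ, 0 < ε → ∃ c C : ℝ, 0 < c ∧ 0 < C ∧ ∀ t T : ℝ, 0 < t → t ≤ 1 / 8 → 2 ≤ T →
      (num t (Exc ε A t T) : ℝ) ≤ C * Real.exp (-(c * t * Real.log T ^ 2)) * num t (Zer t T) ∧
      (num t (Exc ε A t T) : ℝ) ≤ C * Real.exp (-(c * t * Real.log T ^ 2)) * T * Real.log T := by
  obtain ⟨u, H, Z, hu, hGG, hst, hA, -, hH⟩ := Pool.Agent.Y771.NF.all_of (N := 1) (k := 12) (by norm_num)
    Pool.Agent.Y771.NF.newf_delta
  have h1 : Pool.Agent.Y771.NF.Lam (N := 1) (k := 12) Pool.Agent.W97.TW.deltaForm = Lam :=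
    funext fun s => Pool.Agent.Y771.NF.Lam_delta s
  have e1 : Pool.Agent.Y771.NF.Xf (N := 1) (k := 12) Pool.Agent.W97.TW.deltaForm u =
      fun z => u * Lam (((6 : ℝ) : ℂ) + z) := by
    funext z
    have h : (((12 : ℕ) : ℂ)) / 2 = ((6 : ℝ) : ℂ) := by norm_num
    show u * Pool.Agent.Y771.NF.Lam (N := 1) (k := 12) Pool.Agent.W97.TW.deltaForm ((((12 : ℕ) : ℂ)) / 2 + z) = _
    rw [h1, h]
  have hG := Pool.Agent.Y693.GL.gy_one hGG
  rw [e1] at hG hst hA hH
  obtain ⟨h2, h3⟩ := Pool.Agent.R838.CR.countA_shift (κ := 1) (by norm_num) hu hG hA hst hH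
  have hFol : ∀ (Y : ℂ → ℂ) (ε : ℝ) (s : ℂ), Pool.Agent.R838.CR.Fol Y 1 ε s ↔ Followed Y ε s := by
    intro Y ε s
    unfold Pool.Agent.R838.CR.Fol Followed
    simp only [one_mul]
  have hE : ∀ ε A t T : ℝ, Pool.Agent.R838.CR.EXC Lam 1 ε A 6 t T = Exc ε A t T := by
    intro ε A t T
    unfold Pool.Agent.R838.CR.EXC Exc
    simp only [hFol]
    rfl
  refine ⟨h2, fun ε A hε => ?_⟩
  obtain ⟨c, C, hc, hC, h4⟩ := h3 ε A hε
  refine ⟨c, C, hc, hC, fun t T ht ht8 hT => ?_⟩
  have h5 := h4 t T ht ht8 hT
  rw [hE] at h5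
  exact h5

end Pool.Agent.Results.MP_cd509c_nt.HeatFlowSpacing
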