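import Pool.Agent.R838.IS.Is9
import Pool.Agent.Y771.NF.FinH

/-!
# The zeros of the completed L-function of Δ and its heat flow at very short times

Let `Λ(s) = (2π)^(-s) Γ(s) L(s, Δ)`, so that the Ramanujan Xi function is `Ξ_Δ(z) = Λ(6 + i z)`, and let
`Λ_t = exp (t D²) Λ`, `D = d/ds`, be the heat flow: all zeros of `Ξ_Δ` are real if and only if all zeros of `Λ_t` are on
the line `Re s = 6` for all `t > 0`.  The number of the zeros of `Λ_t` with ordinate in `(0, T]` is asymptotic to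
`T log T / π`.

No hypothesis is assumed.

* At times `t ≤ δ / log² T` the zeros of `Λ_t` up to height `T` reproduce those of `Λ`: the numbers of zeros at distance
  at least `σ / log T` from the line, and the numbers of simple zeros on the line without other zeros in a box with
  half height `α / log T` and half width `β / log T`, agree up to changes of `σ`, `α`, `β` by `ε` and up to
  `ε T log T` zeros.
* So if `t(T) log² T → 0`, then almost all zeros of `Λ` are within `o(1 / log T)` of the line if and only if this is true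
  of `Λ_{t(T)}`; and the same for: almost all zeros are simple, on the line, and isolated at the scale `1 / log T`.
* If `t(T) log² T → ∞` and `t(T) log T` is bounded, then the latter is true of `Λ_{t(T)}`.
-/

set_option autoImplicit false

namespace Pool.Agent.Results.MP_cd509c_nt.HeatFlowStability

open Complex Filter Topology

/-- `Δ(i y) = e^(-2πy) ∏_{n ≥ 1} (1 - e^(-2πny))^24`, the modular discriminant on the imaginary axis
(the function of the frozen statement S18517). -/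
noncomputable def delta (y : ℝ) : ℝ :=
  Real.exp (-2 * Real.pi * y) * ∏' n : ℕ, (1 - Real.exp (-2 * Real.pi * ((n : ℝ) + 1) * y)) ^ 24

/-- The completed L-function `Λ(s) = ∫_0^∞ Δ(i y) y^(s-1) dy = (2π)^(-s) Γ(s) L(s, Δ)`, an entire
function with `Λ(12 - s) = Λ(s)`; `Ξ_Δ(z) = Λ(6 + i z)`. -/
noncomputable def Lam (s : ℂ) : ℂ := mellin (fun y : ℝ => ((delta y : ℝ) : ℂ)) s

/-- The heat flow `Λ_t = e^{t D²} Λ` (`D = d/ds`) as a Gaussian average:
`Λ_t(s) = π^(-1/2) ∫ exp (-v²) Λ(s + 2 √t v) dv`; in particular `Λ_0 = Λ`. -/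
noncomputable def heat (t : ℝ) (Λ : ℂ → ℂ) (s : ℂ) : ℂ :=
  ((1 / Real.sqrt Real.pi : ℝ) : ℂ) *
    ∫ v : ℝ, ((Real.exp (-v ^ 2) : ℝ) : ℂ) * Λ (s + ((2 * Real.sqrt t * v : ℝ) : ℂ))

/-- The zeros of `Y` with ordinate in `(0, T]`; a zero of order `m` gives `m` elements. -/
def zeros (Y : ℂ → ℂ) (T : ℝ) : Set (ℂ × ℕ) := {p | p.2 < analyticOrderNatAt Y p.1 ∧ (0 < p.1.im ∧ p.1.im ≤ T)}

/-- The zeros of `Y` with ordinate in `(0, T]` at distance at least `σ / log T` from the line `Re s = 6`; a zero of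
order `m` gives `m` elements. -/
def far (Y : ℂ → ℂ) (T σ : ℝ) : Set (ℂ × ℕ) :=
  {p | p.2 < analyticOrderNatAt Y p.1 ∧ (0 < p.1.im ∧ p.1.im ≤ T) ∧ σ ≤ |p.1.re - 6| * Real.log T}

/-- The simple zeros of `Y` on the line `Re s = 6` with ordinate in `(0, T]` without other zeros in the open box with half
height `α / log T` around the ordinate and half width `β / log T` around the line. -/
def iso (Y : ℂ → ℂ) (T α β : ℝ) : Set ℂ :=
  {s | s.re = 6 ∧ (0 < s.im ∧ s.im ≤ T) ∧ analyticOrderNatAt Y s = 1 ∧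
    ∀ w : ℂ, Y w = 0 → w ≠ s → α ≤ |w.im - s.im| * Real.log T ∨ β ≤ |w.re - 6| * Real.log T}

/-- Almost all zeros of `Y T` up to height `T` are at the distance `o(1 / log T)` from the line `Re s = 6`. -/
def NearLine (Y : ℝ → ℂ → ℂ) : Prop := ∀ σ η : ℝ, 0 < σ → 0 < η → ∀ᶠ T : ℝ in atTop,
  ((far (Y T) T σ).ncard : ℝ) ≤ η * (T * Real.log T)

/-- Almost all zeros of `Y T` up to height `T` are simple, on the line `Re s = 6` and isolated: for every `η > 0` there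
is `σ > 0` such that for large `T` all but `η T log T` of the zeros are in `iso (Y T) T σ σ`. -/
def EssentiallySimple (Y : ℝ → ℂ → ℂ) : Prop := ∀ η : ℝ, 0 < η → ∃ σ : ℝ, 0 < σ ∧
  ∀ᶠ T : ℝ in atTop, ((zeros (Y T) T).ncard : ℝ) ≤ ((iso (Y T) T σ σ).ncard : ℝ) + η * (T * Real.log T)

theorem result :
    (∀ ε : ℝ, 0 < ε → ∃ δ T₀ : ℝ, 0 < δ ∧ ∀ T t : ℝ, T₀ ≤ T → 0 ≤ t → t ≤ δ / Real.log T ^ 2 → ∀ σ : ℝ,
      ((far Lam T σ).ncard : ℝ) ≤ ((far (heat t Lam) T (σ - ε)).ncard : ℝ) + ε * (T * Real.log T) ∧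
      ((far (heat t Lam) T σ).ncard : ℝ) ≤ ((far Lam T (σ - ε)).ncard : ℝ) + ε * (T * Real.log T)) ∧
    (∀ A ε : ℝ, 0 < ε → ∃ δ T₀ : ℝ, 0 < δ ∧ ∀ T t α β : ℝ, T₀ ≤ T → 0 ≤ t → t ≤ δ / Real.log T ^ 2 →
      ε ≤ α → α ≤ A → ε ≤ β →
      ((iso Lam T α β).ncard : ℝ) ≤ ((iso (heat t Lam) T (α - ε) (β - ε)).ncard : ℝ) + ε * (T * Real.log T) ∧
      ((iso (heat t Lam) T α β).ncard : ℝ) ≤ ((iso Lam T (α - ε) (β - ε)).ncard : ℝ) + ε * (T * Real.log T)) ∧
    (∀ t : ℝ → ℝ, (∀ T, 0 ≤ t T) → Tendsto (fun T => t T * Real.log T ^ 2) atTop (𝓝 0) →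
      (NearLine (fun _ => Lam) ↔ NearLine (fun T => heat (t T) Lam)) ∧
      (EssentiallySimple (fun _ => Lam) ↔ EssentiallySimple (fun T => heat (t T) Lam))) ∧
    (∀ (t : ℝ → ℝ) (A : ℝ), (∀ᶠ T in atTop, t T * Real.log T ≤ A) →
      Tendsto (fun T => t T * Real.log T ^ 2) atTop atTop → EssentiallySimple (fun T => heat (t T) Lam)) := by
  obtain ⟨u, H, Z, hu, hGG, hst, -, -, hH⟩ := Pool.Agent.Y771.NF.all_of (N := 1) (k := 12) (by norm_num)
    Pool.Agent.Y771.NF.newf_delta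
  have h1 : Pool.Agent.Y771.NF.Lam (N := 1) (k := 12) Pool.Agent.W97.TW.deltaForm = Lam :=
    funext fun s => Pool.Agent.Y771.NF.Lam_delta s
  have e1 : Pool.Agent.Y771.NF.Xf (N := 1) (k := 12) Pool.Agent.W97.TW.deltaForm u =
      fun z => u * Lam (((6 : ℝ) : ℂ) + z) := by
    funext z
    have h : (((12 : ℕ) : ℂ)) / 2 = ((6 : ℝ) : ℂ) := by norm_num
    show u * Pool.Agent.Y771.NF.Lam (N := 1) (k := 12) Pool.Agent.W97.TW.deltaForm ((((12 : ℕ) : ℂ)) / 2 + z) = _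
    rw [h1, h]
  have hG := Pool.Agent.Y693.GL.gy_one hGG
  rw [e1] at hG hst hH
  obtain ⟨F, FT, hx⟩ := Pool.Agent.R838.IS.hx_of (κ := 1) (by norm_num) hu hG hst hH
  have hz : Pool.Agent.W169.HF.heat 0 Lam = Lam := Pool.Agent.R838.IS.heat_zero Lam
  refine ⟨fun ε hε => ?_, fun A ε hε => ?_, fun t ht hl => ?_, fun t A hA ht => ?_⟩
  · obtain ⟨δ, T0, hδ, hT0, h⟩ := Pool.Agent.R838.IS.cmpLF hx ε hε
    refine ⟨δ, T0, hδ, fun T t h1 h2 h3 σ => ?_⟩
    have h0 : (0 : ℝ) ≤ δ / Real.log T ^ 2 := by positivity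
    have k1 := h T 0 t σ h1 le_rfl h2 (Or.inl rfl) h0 h3
    have k2 := h T t 0 σ h1 h2 le_rfl (Or.inr rfl) h3 h0
    rw [hz] at k1 k2
    exact ⟨k1, k2⟩
  · obtain ⟨δ, T0, hδ, hT0, h⟩ := Pool.Agent.R838.IS.cmpLI hx (max A 0) (le_max_right _ _) ε hε
    refine ⟨δ, T0, hδ, fun T t α β h1 h2 h3 h4 h5 h6 => ?_⟩
    have h0 : (0 : ℝ) ≤ δ / Real.log T ^ 2 := by positivity
    have k1 := h T 0 t α β h1 le_rfl h2 (Or.inl rfl) h0 h3 h4 (h5.trans (le_max_left _ _)) h6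
    have k2 := h T t 0 α β h1 h2 le_rfl (Or.inr rfl) h3 h0 h4 (h5.trans (le_max_left _ _)) h6
    rw [hz] at k1 k2
    exact ⟨k1, k2⟩
  · exact (Pool.Agent.R838.IS.equivL hx ht hl).symm
  · exact Pool.Agent.R838.IS.largeL hx hA ht

end Pool.Agent.Results.MP_cd509c_nt.HeatFlowStability
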